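import Pool.Agent.H20.QL.Defs

/-!
# Project UQL, finite part, module GOOD (helper7)
-/

set_option autoImplicit false
open Finset Matrix

namespace Pool.Agent.H20.QL

open Classical in
theorem good_sum_le {V : Type} [Fintype V] [DecidableEq V] (l0 lmax : ℕ)
    (C : ℕ → Finset V → Prop) (Cx : ℕ → Finset V → Prop) (x : V)
    (hC : ∀ l W, x ∈ W → C l W → Cx l W) (e : ℕ → ℕ → ℝ) (he : ∀ l n, 0 ≤ e l n) :
    ∑ α ∈ (univ : Finset (↥(Finset.Icc l0 lmax) × (Σ W : {W : Finset V // W.Nonempty},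
        (↥W.1 → Bool)))).filter (fun α => x ∈ α.2.1.1),
      (if C α.1.1 α.2.1.1 then e α.1.1 α.2.1.1.card else 0) * 2 ^ α.2.1.1.card ≤
    ∑ l ∈ Finset.Icc l0 lmax, ∑ W ∈ (univ : Finset (Finset V)).filter
      (fun W => x ∈ W ∧ Cx l W), (2 : ℝ) ^ W.card * (e l W.card * 2 ^ W.card) := by
  rw [Finset.sum_filter, Fintype.sum_prod_type, ← Finset.sum_coe_sort (Finset.Icc l0 lmax)]
  refine Finset.sum_le_sum fun l _ => ?_
  rw [Fintype.sum_sigma]
  simp only [Finset.sum_const, Finset.card_univ, Fintype.card_pi, Fintype.card_bool,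
    Finset.prod_const, Fintype.card_coe, nsmul_eq_mul, Nat.cast_pow, Nat.cast_ofNat]
  rw [← Finset.sum_subtype (univ.filter fun W : Finset V => W.Nonempty)
    (p := fun W : Finset V => W.Nonempty) (by simp)
    (fun W : Finset V => (2 : ℝ) ^ W.card * (if x ∈ W then
      (if C l.1 W then e l.1 W.card else 0) * 2 ^ W.card else 0))]
  rw [Finset.sum_filter, Finset.sum_filter]
  refine Finset.sum_le_sum fun W _ => ?_
  have hpos : (0 : ℝ) ≤ 2 ^ W.card * (e l.1 W.card * 2 ^ W.card) := by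
    have := he l.1 W.card
    positivity
  by_cases hx : x ∈ W
  · by_cases hc : C l.1 W
    · have hcx : Cx l.1 W := hC _ _ hx hc
      have hne : W.Nonempty := ⟨x, hx⟩
      simp [hx, hc, hcx, hne]
    · simp only [hx, hc, if_false, zero_mul, mul_zero, ite_self]
      split_ifs
      · exact hpos
      · exact le_rfl
  · simp [hx]

theorem sg_mul_self (b : Bool) : sg b * sg b = 1 := by cases b <;> simp [sg]

theorem exists_sign (r : ℝ) : ∃ b : Bool, |r| = sg b * r := by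
  rcases le_total 0 r with h | h
  · exact ⟨true, by simp [sg, abs_of_nonneg h]⟩
  · exact ⟨false, by simp [sg, abs_of_nonpos h]⟩

theorem good (hA : TailStmt) (hB : ResolventStmt) (hC : AvoidStmt) (hW : WeightStmt)
    (hT : PowersStmt) : GoodStmt := by
  classical
  intro Δ M
  obtain ⟨l0, hl0⟩ := hW Δ M
  refine ⟨l0, ?_⟩
  intro lmax k j D lam κ V _ _ nb T hK hlam hjD hκ hkl
  obtain ⟨hsupp, _, hdiag⟩ := hT V nb Δ D lam T hK hlam
  have hTs : (T ^ j)ᵀ = T ^ j := by
    rw [Matrix.transpose_pow, hK.tsymm.eq]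
  -- the matrices `A_W` and `Q_W`
  let A : ∀ W : Finset V, Matrix ↥W V ℝ := fun W => (T ^ j).submatrix (fun x : ↥W => x.1) id
  have hQ := fun W : Finset V => hB ↥W V (A W) κ hκ
  choose Q hQs hQ0 hQ1 hQt hQi using hQ
  have htr : ∀ W : Finset V, (A W * (A W)ᵀ).trace ≤ W.card * lam ^ j := by
    intro W
    have h1 : (A W * (A W)ᵀ).trace = ∑ x : ↥W, (T ^ (2 * j)) x.1 x.1 := by
      simp only [Matrix.trace, Matrix.diag]
      refine Finset.sum_congr rfl fun x _ => ?_
      rw [two_mul, pow_add, Matrix.mul_apply, Matrix.mul_apply]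
      refine Finset.sum_congr rfl fun y _ => ?_
      have h2 : (T ^ j) y x.1 = (T ^ j) x.1 y := by
        conv_lhs => rw [← hTs]
        rfl
      simp [A, h2]
    rw [h1]
    calc ∑ x : ↥W, (T ^ (2 * j)) x.1 x.1 ≤ ∑ _x : ↥W, lam ^ j :=
          Finset.sum_le_sum fun x _ => hdiag j hjD x.1
      _ = W.card * lam ^ j := by simp
  have hktr : ∀ W : Finset V, (k : ℝ) / 2 * (Q W).trace ≤ W.card / 2 := by
    intro W
    have h1 : (Q W).trace ≤ W.card * lam ^ j / κ :=
      (hQt W).trans (div_le_div_of_nonneg_right (htr W) hκ.le)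
    have h2 : (k : ℝ) / 2 * (Q W).trace ≤ k / 2 * (W.card * lam ^ j / κ) :=
      mul_le_mul_of_nonneg_left h1 (by positivity)
    refine h2.trans ?_
    have h3 : (k : ℝ) / 2 * (W.card * lam ^ j / κ) = (k * lam ^ j) / κ * (W.card / 2) := by
      field_simp
    rw [h3]
    have h4 : (k * lam ^ j) / κ ≤ 1 := (div_le_one hκ).2 hkl
    have h5 : (0 : ℝ) ≤ (W.card : ℝ) / 2 := by positivity
    calc (k * lam ^ j) / κ * ((W.card : ℝ) / 2) ≤ 1 * ((W.card : ℝ) / 2) :=
          mul_le_mul_of_nonneg_right h4 h5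
      _ = (W.card : ℝ) / 2 := one_mul _
  -- avoid the bad events
  let I := ↥(Finset.Icc l0 lmax) × (Σ W : {W : Finset V // W.Nonempty}, (↥W.1 → Bool))
  let C : ℕ → Finset V → Prop := fun l W =>
    ∀ x ∈ W, Cov nb ((4 * (M * l) + 4) * W.card) x W
  let e : ℕ → ℕ → ℝ := fun l n => Real.exp (-((2 : ℝ) ^ l / 4 * n) / 4 + n / 2)
  let S : ∀ (W : Finset V) (σ : ↥W → Bool) (ω : ↥W → Fin k → Bool), ℝ := fun W σ ω =>
    ∑ i, (fun x => sg (σ x) * sg (ω x i)) ⬝ᵥ (Q W *ᵥ fun x => sg (σ x) * sg (ω x i))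
  have key := hC V (Fin k → Bool) I (fun α => α.2.1.1)
    (fun α ω => C α.1.1 α.2.1.1 ∧ (2 : ℝ) ^ α.1.1 / 4 * α.2.1.1.card < S α.2.1.1 α.2.2 ω)
    (fun α => if C α.1.1 α.2.1.1 then e α.1.1 α.2.1.1.card else 0)
    (fun α => α.2.1.2)
    (by
      rintro ⟨l, W, σ⟩
      by_cases hc : C l.1 W.1
      · simp only [hc, true_and, if_true]
        have h1 := hA ↥W.1 k (Q W.1) (hQs W.1) (hQ0 W.1) (hQ1 W.1) σ
          ((2 : ℝ) ^ l.1 / 4 * W.1.card)
        refine h1.trans ?_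
        have h2 : (Fintype.card (Fin k → Bool) : ℝ) ^ W.1.card = 2 ^ (k * Fintype.card ↥W.1) := by
          simp [pow_mul]
        rw [h2, mul_comm (e _ _)]
        refine mul_le_mul_of_nonneg_left ?_ (by positivity)
        refine Real.exp_le_exp.2 ?_
        have := hktr W.1
        linarith
      · simp [hc])
    (by
      intro x
      have h1 := good_sum_le l0 lmax C (fun l W => Cov nb ((4 * (M * l) + 4) * W.card) x W) x
        (fun l W hx hc => hc x hx) e (fun l n => (Real.exp_pos _).le)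
      refine (le_of_eq ?_).trans (h1.trans ((le_of_eq ?_).trans
        (hl0 V nb hK.deg lmax x)))
      · refine Finset.sum_congr rfl fun α _ => ?_
        congr
      · rfl)
  obtain ⟨ε, hε⟩ := key
  refine ⟨ε, ?_⟩
  intro l hl hl' W hcov β
  rcases W.eq_empty_or_nonempty with rfl | hne
  · simp
  -- signs
  have hsig := fun x : ↥W => exists_sign (pr ε (fun i => (T ^ j) *ᵥ β i) x.1)
  choose σ hσ using hsig
  have hgood := hε ⟨⟨l, Finset.mem_Icc.2 ⟨hl, hl'⟩⟩, ⟨⟨W, hne⟩, σ⟩⟩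
  simp only [not_and, not_lt] at hgood
  have hS : S W σ (fun x => ε x.1) ≤ (2 : ℝ) ^ l / 4 * W.card := hgood hcov
  -- the cut functions
  let β' : Fin k → V → ℝ := fun i y => if y ∈ nset nb j W then β i y else 0
  have hcut : ∀ (i : Fin k) (x : ↥W), (A W *ᵥ β' i) x = ((T ^ j) *ᵥ β i) x.1 := by
    intro i x
    simp only [Matrix.mulVec, dotProduct]
    refine Finset.sum_congr rfl fun y _ => ?_
    simp only [A, Matrix.submatrix_apply, id]
    by_cases hy : (T ^ j) x.1 y = 0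
    · simp [hy]
    · have hmem : y ∈ nset nb j W :=
        Finset.mem_biUnion.2 ⟨x.1, x.2, hsupp j x.1 y hy⟩
      simp [β', hmem]
  have hleft : ∑ x ∈ W, |pr ε (fun i => (T ^ j) *ᵥ β i) x| =
      ∑ i, (fun x : ↥W => sg (σ x) * sg (ε x.1 i)) ⬝ᵥ (A W *ᵥ β' i) := by
    rw [← Finset.sum_coe_sort W]
    simp only [dotProduct]
    rw [Finset.sum_comm]
    refine Finset.sum_congr rfl fun x _ => ?_
    rw [hσ x]
    simp only [pr, Finset.mul_sum]
    refine Finset.sum_congr rfl fun i _ => ?_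
    rw [hcut i x]
    ring
  have hq := hQi W k (fun i x => sg (σ x) * sg (ε x.1 i)) β'
  rw [hleft]
  have h1 : ∑ i, ((A W *ᵥ β' i) ⬝ᵥ (A W *ᵥ β' i)) =
      ∑ x ∈ W, sq (fun i => (T ^ j) *ᵥ β i) x := by
    rw [← Finset.sum_coe_sort W]
    simp only [dotProduct, sq]
    rw [Finset.sum_comm]
    refine Finset.sum_congr rfl fun x _ => Finset.sum_congr rfl fun i _ => ?_
    rw [hcut i x]
    ring
  have h2 : ∑ i, (β' i ⬝ᵥ β' i) = ∑ y ∈ nset nb j W, sq β y := by
    simp only [dotProduct, sq]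
    rw [Finset.sum_comm, ← Finset.sum_filter_add_sum_filter_not univ (fun y => y ∈ nset nb j W)]
    have h3 : ∑ y ∈ univ.filter (fun y => ¬ y ∈ nset nb j W), ∑ i, β' i y * β' i y = 0 := by
      refine Finset.sum_eq_zero fun y hy => Finset.sum_eq_zero fun i _ => ?_
      have : y ∉ nset nb j W := (Finset.mem_filter.1 hy).2
      simp [β', this]
    rw [h3, add_zero]
    have h4 : univ.filter (fun y => y ∈ nset nb j W) = nset nb j W := by
      ext y; simp
    rw [h4]
    refine Finset.sum_congr rfl fun y hy => Finset.sum_congr rfl fun i _ => ?_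
    simp only [β', hy, if_true]
    ring
  have h3 : ∑ i, ((A W *ᵥ β' i) ⬝ᵥ (A W *ᵥ β' i) + κ * (β' i ⬝ᵥ β' i)) =
      ∑ x ∈ W, sq (fun i => (T ^ j) *ᵥ β i) x + κ * ∑ y ∈ nset nb j W, sq β y := by
    rw [Finset.sum_add_distrib, h1, ← Finset.mul_sum, h2]
  rw [h3] at hq
  have h4 : 0 ≤ ∑ x ∈ W, sq (fun i => (T ^ j) *ᵥ β i) x + κ * ∑ y ∈ nset nb j W, sq β y := by
    have ha : 0 ≤ ∑ x ∈ W, sq (fun i => (T ^ j) *ᵥ β i) x :=
      Finset.sum_nonneg fun x _ => Finset.sum_nonneg fun i _ => sq_nonneg _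
    have hb : 0 ≤ ∑ y ∈ nset nb j W, sq β y :=
      Finset.sum_nonneg fun x _ => Finset.sum_nonneg fun i _ => sq_nonneg _
    have := mul_nonneg hκ.le hb
    linarith
  exact hq.trans (mul_le_mul_of_nonneg_right hS h4)

end Pool.Agent.H20.QL
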